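import Mathlib
import Pool.Agent.H359R3.W3

/-!
Almost everywhere divergence, with free heights, for MP_365e45_an.
-/

open MeasureTheory Filter Topology
open scoped ENNReal

namespace Pool.Agent.Y295.WD

open Pool.H359R3.W

theorem AE_indep : ProbabilityTheory.iIndepSet AE mu := by
  rw [ProbabilityTheory.iIndepSet_iff_meas_biInter AE_meas]
  intro s
  have h : ProbabilityTheory.iIndepFun (fun (j : ℕ) (ω : XX) => ω j) mu :=
    ProbabilityTheory.iIndepFun_infinitePi (P := nu) (X := fun (j : ℕ) (x : ZMod (Mj j)) => x)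
      (fun j => measurable_id)
  have h2 := h.measure_inter_preimage_eq_mul s
    (sets := fun j => (((Good (20 * j) (7 * j)).image (fun y : ℕ => (y : ZMod (Mj j)))
      : Finset (ZMod (Mj j))) : Set (ZMod (Mj j))))
    (fun j _ => (Set.to_countable _).measurableSet)
  exact h2

theorem AE_sum : ∑' j, mu (AE j) = ⊤ := by
  obtain ⟨J, hJ⟩ := mu_good
  rw [eq_top_iff]
  calc (⊤ : ℝ≥0∞) = ∑' _ : ℕ, (4 : ℝ≥0∞)⁻¹ := by
        rw [ENNReal.tsum_const_eq_top_of_ne_zero (by norm_num)]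
    _ ≤ ∑' j : ℕ, mu (AE (j + J)) := ENNReal.tsum_le_tsum (fun j => hJ (j + J) (by omega))
    _ ≤ ∑' j : ℕ, mu (AE j) :=
        ENNReal.tsum_comp_le_tsum_of_injective (f := fun j : ℕ => j + J)
          (fun a b h => by simpa using h) (fun j => mu (AE j))

theorem AE_often : ∀ᵐ x ∂mu, ∃ᶠ j in atTop, x ∈ AE j := by
  have h1 := ProbabilityTheory.measure_limsup_eq_one AE_meas AE_indep AE_sum
  have h2 : ∀ᵐ x ∂mu, x ∈ limsup AE atTop := by
    rw [← mem_ae_iff_prob_eq_one] at h1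
    · exact h1
    · exact MeasurableSet.measurableSet_limsup AE_meas
  filter_upwards [h2] with x hx
  exact mem_limsup_iff_frequently_mem.1 hx

/-- the function with height `h ^ j` on `A j` -/
noncomputable def HH (h : ℝ) (A : ℕ → Set XX) (x : XX) : ℝ≥0∞ :=
  ⨆ j, (A j).indicator (fun _ => (ENNReal.ofReal h) ^ j) x

theorem HH_meas (h : ℝ) (A : ℕ → Set XX) (hA : ∀ j, MeasurableSet (A j)) :
    Measurable (HH h A) := by
  unfold HH
  exact Measurable.iSup (fun j => measurable_const.indicator (hA j))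

theorem HH_int (h p : ℝ) (h0 : 0 < h) (hp0 : 0 < p) (hhp : h ^ p < 8192)
    (A : ℕ → Set XX) (hA : ∀ j, MeasurableSet (A j))
    (hμ : ∀ j, mu (A j) ≤ ((8192 : ℝ≥0∞)⁻¹) ^ j) :
    ∫⁻ x, (HH h A x) ^ p ∂mu < ⊤ := by
  have key : (ENNReal.ofReal h) ^ p < 8192 := by
    have h2 : (8192 : ℝ≥0∞) = ENNReal.ofReal 8192 := by norm_num
    rw [h2, ENNReal.ofReal_rpow_of_pos h0]
    exact (ENNReal.ofReal_lt_ofReal_iff (by norm_num)).2 hhp
  have h1 : ∀ x, (HH h A x) ^ p ≤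
      ∑' j, (A j).indicator (fun _ => ((ENNReal.ofReal h) ^ j) ^ p) x := by
    intro x
    rw [← ENNReal.le_rpow_inv_iff hp0]
    unfold HH
    apply iSup_le
    intro j
    rw [ENNReal.le_rpow_inv_iff hp0]
    refine le_trans ?_ (ENNReal.le_tsum j)
    by_cases hx : x ∈ A j
    · rw [Set.indicator_of_mem hx, Set.indicator_of_mem hx]
    · rw [Set.indicator_of_notMem hx, Set.indicator_of_notMem hx, ENNReal.zero_rpow_of_pos hp0]
  calc ∫⁻ x, (HH h A x) ^ p ∂mu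
      ≤ ∫⁻ x, ∑' j, (A j).indicator (fun _ => ((ENNReal.ofReal h) ^ j) ^ p) x ∂mu :=
        lintegral_mono h1
    _ = ∑' j, ∫⁻ x, (A j).indicator (fun _ => ((ENNReal.ofReal h) ^ j) ^ p) x ∂mu :=
        lintegral_tsum (fun j => (measurable_const.indicator (hA j)).aemeasurable)
    _ = ∑' j, ((ENNReal.ofReal h) ^ j) ^ p * mu (A j) := by
        congr 1
        funext j
        rw [lintegral_indicator_const (hA j)]
    _ ≤ ∑' j, ((ENNReal.ofReal h) ^ p * 8192⁻¹) ^ j := by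
        apply ENNReal.tsum_le_tsum
        intro j
        rw [mul_pow]
        have : ((ENNReal.ofReal h) ^ j) ^ p = ((ENNReal.ofReal h) ^ p) ^ j := by
          rw [← ENNReal.rpow_natCast, ← ENNReal.rpow_mul, mul_comm, ENNReal.rpow_mul,
            ENNReal.rpow_natCast]
        rw [this]
        gcongr
        exact hμ j
    _ = (1 - (ENNReal.ofReal h) ^ p * 8192⁻¹)⁻¹ := ENNReal.tsum_geometric _
    _ < ⊤ := by
        rw [ENNReal.inv_lt_top]
        rw [tsub_pos_iff_lt]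
        rw [← div_eq_mul_inv]
        rw [ENNReal.div_lt_iff (Or.inl (by norm_num)) (Or.inl (by norm_num)), one_mul]
        exact key

noncomputable def hR (h : ℝ) (A : ℕ → Set XX) (x : XX) : ℝ := (HH h A x).toReal

theorem hR_nonneg (h : ℝ) (A : ℕ → Set XX) (x : XX) : 0 ≤ hR h A x := ENNReal.toReal_nonneg

theorem hR_memLp (h p : ℝ) (h0 : 0 < h) (hp0 : 0 < p) (hhp : h ^ p < 8192)
    (A : ℕ → Set XX) (hA : ∀ j, MeasurableSet (A j))
    (hμ : ∀ j, mu (A j) ≤ ((8192 : ℝ≥0∞)⁻¹) ^ j) :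
    MemLp (hR h A) (ENNReal.ofReal p) mu := by
  have hm : Measurable (hR h A) := by
    unfold hR
    exact (HH_meas h A hA).ennreal_toReal
  refine ⟨hm.aestronglyMeasurable, ?_⟩
  have hp1 : ENNReal.ofReal p ≠ 0 := (ENNReal.ofReal_pos.2 hp0).ne'
  rw [eLpNorm_lt_top_iff_lintegral_rpow_enorm_lt_top hp1 ENNReal.ofReal_ne_top]
  rw [ENNReal.toReal_ofReal hp0.le]
  refine lt_of_le_of_lt (lintegral_mono ?_) (HH_int h p h0 hp0 hhp A hA hμ)
  intro x
  simp only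
  apply ENNReal.rpow_le_rpow _ hp0.le
  unfold hR
  have h1 : ‖(HH h A x).toReal‖ₑ = ENNReal.ofReal (HH h A x).toReal := by
    rw [← ofReal_norm, Real.norm_of_nonneg ENNReal.toReal_nonneg]
  rw [h1]
  exact ENNReal.ofReal_toReal_le

theorem HH_fin (h p : ℝ) (h0 : 0 < h) (hp0 : 0 < p) (hhp : h ^ p < 8192)
    (A : ℕ → Set XX) (hA : ∀ j, MeasurableSet (A j))
    (hμ : ∀ j, mu (A j) ≤ ((8192 : ℝ≥0∞)⁻¹) ^ j) : ∀ᵐ x ∂mu, HH h A x < ⊤ := by
  have h1 := ae_lt_top ((HH_meas h A hA).pow_const p) (HH_int h p h0 hp0 hhp A hA hμ).ne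
  filter_upwards [h1] with x hx
  by_contra hc
  rw [not_lt, top_le_iff] at hc
  rw [hc, ENNReal.top_rpow_of_pos hp0] at hx
  exact lt_irrefl _ hx

theorem hR_ge (h : ℝ) (h0 : 0 < h) (A : ℕ → Set XX) (x : XX) (hx : HH h A x < ⊤) (j : ℕ)
    (hA : x ∈ A j) : h ^ j ≤ hR h A x := by
  unfold hR
  have h1 : (ENNReal.ofReal h) ^ j ≤ HH h A x := by
    unfold HH
    refine le_trans ?_ (le_iSup _ j)
    rw [Set.indicator_of_mem hA]
  have h2 := ENNReal.toReal_mono hx.ne h1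
  rw [ENNReal.toReal_pow, ENNReal.toReal_ofReal h0.le] at h2
  exact h2

/-- the real average -/
noncomputable def av (u v : ℝ) (N : ℕ) (x : XX) : ℝ :=
  (1 / (N : ℝ)) * ∑ n ∈ Finset.Icc 1 N, (1 + (gw n : ℝ)) * (hR u AF ((TT : XX → XX)^[n] x) *
    hR v AG ((TT.symm : XX → XX)^[n] x))

theorem av_big (u v : ℝ) (hu : 0 < u) (hv : 0 < v) (x : XX)
    (hF : ∀ n : ℕ, HH u AF ((TT : XX → XX)^[n] x) < ⊤)
    (hG : ∀ n : ℕ, HH v AG ((TT.symm : XX → XX)^[n] x) < ⊤) (j : ℕ) (hj : 1 ≤ j) (hx : x ∈ AE j) :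
    (1 / 2) * ((64 * (u * v)) / 3 ^ 20) ^ j ≤ av u v (Mj j) x := by
  unfold AE Cyl at hx
  rw [Set.mem_ofPred_eq, Finset.mem_image] at hx
  obtain ⟨y, hy, hyx⟩ := hx
  obtain ⟨hylt, m, hmD, hmF, z, hzG, hyz⟩ := Good_mem _ _ _ hy
  have hmb := D_mem _ _ _ hmD
  have h1 : (TT : XX → XX)^[m] x ∈ AF j := by
    unfold AF Cyl
    rw [Set.mem_ofPred_eq, TT_iter, ← hyx, Finset.mem_image]
    exact ⟨y + m, hmF, by push_cast; ring⟩
  have h2 : (TT.symm : XX → XX)^[m] x ∈ AG j := by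
    unfold AG Cyl
    rw [Set.mem_ofPred_eq, TT_symm_iter, ← hyx, Finset.mem_image]
    exact ⟨z, hzG, by rw [hyz]; push_cast; ring⟩
  have h3 := hR_ge u hu AF _ (hF m) j h1
  have h4 := hR_ge v hv AG _ (hG m) j h2
  have h5 := gw_ge m j hj hmD
  have h5' : (64 : ℝ) ^ j ≤ 1 + (gw m : ℝ) := by
    have : ((64 ^ j : ℕ) : ℝ) ≤ gw m := by exact_mod_cast h5
    push_cast at this
    linarith
  have hMpos : (0 : ℝ) < (Mj j : ℕ) := by
    have := Nat.pos_of_ne_zero (NeZero.ne (Mj j))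
    exact_mod_cast this
  have h6 : (64 : ℝ) ^ j * (u ^ j * v ^ j) ≤ ∑ n ∈ Finset.Icc 1 (Mj j), (1 + (gw n : ℝ)) *
      (hR u AF ((TT : XX → XX)^[n] x) * hR v AG ((TT.symm : XX → XX)^[n] x)) := by
    have hmem : m ∈ Finset.Icc 1 (Mj j) := by
      rw [Finset.mem_Icc]
      have h7 : 0 < 3 ^ (20 * j) := by positivity
      unfold Mj
      omega
    refine le_trans ?_ (Finset.single_le_sum (f := fun n => (1 + (gw n : ℝ)) *
      (hR u AF ((TT : XX → XX)^[n] x) * hR v AG ((TT.symm : XX → XX)^[n] x))) ?_ hmem)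
    · have h9 := hR_nonneg u AF ((TT : XX → XX)^[m] x)
      have h10 : u ^ j * v ^ j ≤ hR u AF ((TT : XX → XX)^[m] x) *
          hR v AG ((TT.symm : XX → XX)^[m] x) := mul_le_mul h3 h4 (by positivity) h9
      exact mul_le_mul h5' h10 (by positivity) (by positivity)
    · intro n _
      have := hR_nonneg u AF ((TT : XX → XX)^[n] x)
      have := hR_nonneg v AG ((TT.symm : XX → XX)^[n] x)
      positivity
  unfold av
  have h8 : (1 / 2) * ((64 * (u * v)) / 3 ^ 20) ^ j =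
      (1 / ((Mj j : ℕ) : ℝ)) * ((64 : ℝ) ^ j * (u ^ j * v ^ j)) := by
    unfold Mj
    push_cast
    rw [div_pow, mul_pow, mul_pow, ← pow_mul]
    field_simp
  rw [h8]
  gcongr

theorem all_fin (u v p q : ℝ) (hu : 0 < u) (hv : 0 < v) (hp : 0 < p) (hq : 0 < q)
    (hup : u ^ p < 8192) (hvq : v ^ q < 8192) :
    ∀ᵐ x ∂mu, (∀ n : ℕ, HH u AF ((TT : XX → XX)^[n] x) < ⊤) ∧
    (∀ n : ℕ, HH v AG ((TT.symm : XX → XX)^[n] x) < ⊤) := by
  have h1 : ∀ᵐ x ∂mu, ∀ n : ℕ, HH u AF ((TT : XX → XX)^[n] x) < ⊤ := by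
    rw [ae_all_iff]
    intro n
    exact (TT_mp.iterate n).quasiMeasurePreserving.ae (HH_fin u p hu hp hup AF AF_meas AF_small)
  have h2 : ∀ᵐ x ∂mu, ∀ n : ℕ, HH v AG ((TT.symm : XX → XX)^[n] x) < ⊤ := by
    rw [ae_all_iff]
    intro n
    exact ((TT_mp.symm TT).iterate n).quasiMeasurePreserving.ae
      (HH_fin v q hv hq hvq AG AG_meas AG_small)
  filter_upwards [h1, h2] with x hx1 hx2
  exact ⟨hx1, hx2⟩

theorem diverge_ae (u v p q : ℝ) (hu : 0 < u) (hv : 0 < v) (hp : 0 < p) (hq : 0 < q)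
    (hup : u ^ p < 8192) (hvq : v ^ q < 8192) (huv : 3 ^ 20 < 64 * (u * v)) :
    ∀ᵐ x ∂mu, ∀ R : ℝ, ∀ N₀ : ℕ, ∃ N ≥ N₀, R ≤ av u v N x := by
  filter_upwards [all_fin u v p q hu hv hp hq hup hvq, AE_often] with x hx hmem R N₀
  have hr : (1 : ℝ) < (64 * (u * v)) / 3 ^ 20 := by
    rw [lt_div_iff₀ (by norm_num), one_mul]
    exact huv
  obtain ⟨k, hk⟩ := pow_unbounded_of_one_lt (2 * R) hr
  obtain ⟨j, hj, hxj⟩ := (frequently_atTop.1 hmem) (max (max k N₀) 1)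
  have hj1 : 1 ≤ j := (le_max_right _ _).trans hj
  have hjk : k ≤ j := ((le_max_left _ _).trans (le_max_left _ _)).trans hj
  have hjN : N₀ ≤ j := ((le_max_right _ _).trans (le_max_left _ _)).trans hj
  refine ⟨Mj j, ?_, ?_⟩
  · have h3 : j < 3 ^ j := Nat.lt_pow_self (by norm_num)
    have h4 : 3 ^ j ≤ 3 ^ (20 * j) := Nat.pow_le_pow_right (by norm_num) (by omega)
    unfold Mj
    omega
  · refine le_trans ?_ (av_big u v hu hv x hx.1 hx.2 j hj1 hxj)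
    have h5 : ((64 * (u * v)) / 3 ^ 20) ^ k ≤ ((64 * (u * v)) / 3 ^ 20) ^ j :=
      pow_le_pow_right₀ hr.le hjk
    linarith

/-- numerical core: `8191 ^ (99/50) > 3 ^ 20 / 64` -/
theorem num_key : (3 : ℝ) ^ 20 < 64 * (8191 : ℝ) ^ ((99 : ℝ) / 50) := by
  have h1 : ((3 : ℝ) ^ 20 / 64) < (8191 : ℝ) ^ ((99 : ℝ) / 50) := by
    apply lt_of_pow_lt_pow_left₀ 50 (by positivity)
    rw [← Real.rpow_natCast ((8191 : ℝ) ^ ((99 : ℝ) / 50)), ← Real.rpow_mul (by norm_num)]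
    have : (99 : ℝ) / 50 * ((50 : ℕ) : ℝ) = ((99 : ℕ) : ℝ) := by norm_num
    rw [this, Real.rpow_natCast]
    norm_num
  linarith

/-- suitable heights for all `p, q` with `1/p + 1/q ≥ 99/50` -/
theorem heights (p q : ℝ) (hp : 1 ≤ p) (hq : 1 ≤ q) (hpq : 99 / 50 ≤ 1 / p + 1 / q) :
    ∃ u v : ℝ, 0 < u ∧ 0 < v ∧ u ^ p < 8192 ∧ v ^ q < 8192 ∧ 3 ^ 20 < 64 * (u * v) := by
  have hp0 : 0 < p := by linarith
  have hq0 : 0 < q := by linarith
  refine ⟨(8191 : ℝ) ^ (1 / p), (8191 : ℝ) ^ (1 / q), by positivity, by positivity, ?_, ?_, ?_⟩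
  · rw [← Real.rpow_mul (by norm_num), one_div, inv_mul_cancel₀ hp0.ne', Real.rpow_one]
    norm_num
  · rw [← Real.rpow_mul (by norm_num), one_div, inv_mul_cancel₀ hq0.ne', Real.rpow_one]
    norm_num
  · rw [← Real.rpow_add (by norm_num)]
    have h1 : (8191 : ℝ) ^ ((99 : ℝ) / 50) ≤ (8191 : ℝ) ^ (1 / p + 1 / q) :=
      Real.rpow_le_rpow_of_exponent_le (by norm_num) hpq
    have h2 := num_key
    linarith

end Pool.Agent.Y295.WD
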